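import Mathlib
import Pool.Agent.H9.IsoC1
import Pool.Agent.H9.IsoC2
import Pool.Agent.H9.IsoC3

set_option autoImplicit false

namespace Pool.Agent.Results.MP_90133a_co.Counter

abbrev E := EuclideanSpace ℝ (Fin 3)

/-- The planes `inner (a i) x = b i` are in general position: any at most three normals are
linearly independent, and no four planes have a common point. -/
def GenPos {n : ℕ} (a : Fin n → E) (b : Fin n → ℝ) : Prop :=
  (∀ F : Finset (Fin n), F.card ≤ 3 → LinearIndepOn ℝ a F) ∧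
  (∀ F : Finset (Fin n), F.card = 4 → ¬ ∃ x : E, ∀ i ∈ F, inner ℝ (a i) x = b i)

/-- Connected components of the complement of the union of the planes. -/
def Chambers {n : ℕ} (a : Fin n → E) (b : Fin n → ℝ) : Set (Set E) :=
  {C | ∃ x ∈ {x : E | ∀ i, inner ℝ (a i) x ≠ b i},
    C = connectedComponentIn {x : E | ∀ i, inner ℝ (a i) x ≠ b i} x}

/-- Exactly one plane separates `C` from `D`. -/
def Adj {n : ℕ} (a : Fin n → E) (b : Fin n → ℝ) (C D : Set E) : Prop :=
  ∃! i : Fin n, ∀ x ∈ C, ∀ y ∈ D, (inner ℝ (a i) x - b i) * (inner ℝ (a i) y - b i) < 0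

/-- Edges of the chamber graph leaving `S`, as pairs (end in `S`, end outside `S`). -/
def Boundary {n : ℕ} (a : Fin n → E) (b : Fin n → ℝ) (S : Set (Set E)) : Set (Set E × Set E) :=
  {p | p.1 ∈ S ∧ p.2 ∈ Chambers a b \ S ∧ Adj a b p.1 p.2}

theorem result : ∃ (a : Fin 24 → E) (b : Fin 24 → ℝ), GenPos a b ∧ (Chambers a b).Finite ∧
    ∃ S ⊆ Chambers a b, 2 * S.ncard ≤ (Chambers a b).ncard ∧
      S.ncard = ∑ i ∈ Finset.range 4, Nat.choose 19 i ∧
      (Boundary a b S).ncard < ∑ i ∈ Finset.range 3, Nat.choose 19 i := by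
  open Pool.Agent.H9.Iso Pool.Agent.H9.IsoData Pool.Agent.H9.IsoC in
  obtain ⟨S, h1, h2, h3, h4⟩ := Pool.Agent.H9.Iso.main 24 T4 A root c1 c2 c7
  open Pool.Agent.H9.Iso Pool.Agent.H9.IsoData Pool.Agent.H9.IsoC in
  rw [c3] at h2
  open Pool.Agent.H9.Iso Pool.Agent.H9.IsoData Pool.Agent.H9.IsoC in
  rw [c4] at h3
  open Pool.Agent.H9.Iso Pool.Agent.H9.IsoData Pool.Agent.H9.IsoC in
  rw [c5] at h4
  open Pool.Agent.H9.Iso Pool.Agent.H9.IsoData Pool.Agent.H9.IsoC in
  exact ⟨fun i => nv (A i), fun i => -(A i).d,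
    ⟨gp3_sound (by norm_num) c6, gp4_sound c7⟩, Ch_fin 24 A, S, h1,
    le_trans (by rw [h2]; norm_num) h3, by rw [h2]; decide, lt_of_le_of_lt h4 (by decide)⟩

end Pool.Agent.Results.MP_90133a_co.Counter
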